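import Pool.Agent.H244R2.GraphFinal

set_option autoImplicit false

namespace Pool.Agent.Results.MP_cfcaf3_co.PairsAction

open Filter Asymptotics

/-- `f_n(G)`: the number of orbits of a group `G`, acting on a set `X`, on the set of all
`n`-element subsets of `X`. -/
noncomputable def orbitCount (G X : Type) [Group G] [MulAction G X] [DecidableEq X] (n : ℕ) : ℕ :=
  Nat.card (MulAction.orbitRel.Quotient G (Set.powersetCard X n))

/-- Let `Ω` be a countably infinite set and let `S = Sym(Ω)` act on the set of `2`-element subsets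
of `Ω`. Then `f_n ~ B_{2n} / (2^n n! √n) * exp (-(1/4) (log (2n / log n))^2)`, where `B_k` is the
`k`-th Bell number. -/
theorem result (Ω : Type) [DecidableEq Ω] [Infinite Ω] [Countable Ω] :
    IsEquivalent atTop
      (fun n : ℕ => (orbitCount (Equiv.Perm Ω) (Set.powersetCard Ω 2) n : ℝ))
      (fun n : ℕ => (Nat.bell (2 * n) : ℝ) / (2 ^ n * (n.factorial : ℝ) * Real.sqrt n) *
        Real.exp (-(1 / 4) * Real.log (2 * n / Real.log n) ^ 2)) := by
  have h := Pool.Agent.H244R2.graph_orbits_asymptotic (Ω := Ω)
  rw [isEquivalent_iff_tendsto_one]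
  · exact h
  · filter_upwards [eventually_gt_atTop 0] with n hn
    have hb : (Nat.bell (2 * n) : ℝ) ≠ 0 := by
      exact_mod_cast (Pool.Agent.H244R2.bell_pos _).ne'
    have hn0 : (0:ℝ) < n := by exact_mod_cast hn
    have hs : Real.sqrt n ≠ 0 := (Real.sqrt_pos.2 hn0).ne'
    positivity

end Pool.Agent.Results.MP_cfcaf3_co.PairsAction
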