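import Pool.Agent.H244R2.BipFinal

set_option autoImplicit false

namespace Pool.Agent.Results.MP_cfcaf3_co.ProductAction

open Filter Asymptotics

/-- `f_n(G)`: the number of orbits of a group `G`, acting on a set `X`, on the set of all
`n`-element subsets of `X`. -/
noncomputable def orbitCount (G X : Type) [Group G] [MulAction G X] [DecidableEq X] (n : ℕ) : ℕ :=
  Nat.card (MulAction.orbitRel.Quotient G (Set.powersetCard X n))

/-- The wreath product `Sym(Ω) Wr S₂` in its power (product) action on `Ω × Ω`: the group of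
permutations of `Ω × Ω` generated by the permutations `(a, b) ↦ (g a, h b)`, for `g, h ∈ Sym(Ω)`,
and the swap `(a, b) ↦ (b, a)` of the two coordinates. -/
def wreathPower (Ω : Type) : Subgroup (Equiv.Perm (Ω × Ω)) :=
  Subgroup.closure
    ({σ | ∃ g h : Equiv.Perm Ω, σ = Equiv.prodCongr g h} ∪ {Equiv.prodComm Ω Ω})

/-- Let `Ω` be a countably infinite set and let `Sym(Ω) Wr S₂` act on `Ω × Ω` in the power
(product) action. Then `f_n ~ B_n^2 / (2 n! log n) * exp (-(1/2) (log (n / log n))^2)`, where `B_n`
is the `n`-th Bell number. -/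
theorem result (Ω : Type) [DecidableEq Ω] [Infinite Ω] [Countable Ω] :
    IsEquivalent atTop
      (fun n : ℕ => (orbitCount (wreathPower Ω) (Ω × Ω) n : ℝ))
      (fun n : ℕ => (Nat.bell n : ℝ) ^ 2 / (2 * (n.factorial : ℝ) * Real.log n) *
        Real.exp (-(1 / 2) * Real.log (n / Real.log n) ^ 2)) := by
  have h := Pool.Agent.H244R2.wreath_orbits_asymptotic (Ω := Ω)
  rw [isEquivalent_iff_tendsto_one]
  · exact h
  · filter_upwards [eventually_gt_atTop 1] with n hn
    have hb : (Nat.bell n : ℝ) ≠ 0 := by
      exact_mod_cast (Pool.Agent.H244R2.bell_pos _).ne'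
    have hlog : Real.log n ≠ 0 := (Real.log_pos (by exact_mod_cast hn)).ne'
    positivity

end Pool.Agent.Results.MP_cfcaf3_co.ProductAction
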